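import Pool.Agent.Y247.HX.Fin

set_option autoImplicit false
open MeasureTheory

namespace Pool.Agent.Results.MP_31cf03_an.LowerSets

/-- The trigonometric polynomial `∑ c_k e^{i (k, x)}` with (finitely many) coefficients `c_k`. -/
noncomputable def trigPoly {d : ℕ} (c : (Fin d → ℤ) →₀ ℂ) (x : Fin d → ℝ) : ℂ :=
  c.sum fun k a => a * Complex.exp (Complex.I * ∑ j, (k j : ℂ) * (x j : ℂ))

/-- The normalised `L_p` (quasi-)norm over the cube `[0, 2π]^d`, for a real `p > 0`. -/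
noncomputable def normLp {d : ℕ} (p : ℝ) (f : (Fin d → ℝ) → ℂ) : ℝ :=
  (((2 * Real.pi) ^ d)⁻¹ * ∫ x in Set.Icc (0 : Fin d → ℝ) (fun _ => 2 * Real.pi), ‖f x‖ ^ p) ^ (1 / p)

/-- The `ℓ_q` norm of the coefficients, for a real `q ≥ 1`. -/
noncomputable def coefNorm {d : ℕ} (q : ℝ) (c : (Fin d → ℤ) →₀ ℂ) : ℝ :=
  (∑ k ∈ c.support, ‖c k‖ ^ q) ^ (1 / q)

/-- The product `∏ max(|k_j|, 1)`. -/
noncomputable def size {d : ℕ} (k : Fin d → ℤ) : ℝ := ∏ j, max |(k j : ℝ)| 1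

/-- The hyperbolic cross: integer vectors `k` with `∏ max(|k_j|, 1) ≤ N`. -/
def Gamma (d : ℕ) (N : ℝ) : Set (Fin d → ℤ) := {k | size k ≤ N}

/-- A lower set of frequencies: with `k` it contains every `l` with `|l_j| ≤ |k_j|` for all `j`. -/
def IsLow {d : ℕ} (Λ : Set (Fin d → ℤ)) : Prop :=
  ∀ k ∈ Λ, ∀ l : Fin d → ℤ, (∀ j, |l j| ≤ |k j|) → l ∈ Λ

/-- The quotients `‖(c_k)‖_{ℓ_q} / ‖t‖_p`, for nonzero `t` with frequencies in `Λ`. -/
def ratios {d : ℕ} (Λ : Set (Fin d → ℤ)) (p q : ℝ) : Set ℝ :=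
  {ρ | ∃ c : (Fin d → ℤ) →₀ ℂ, c ≠ 0 ∧ (∀ k ∈ c.support, k ∈ Λ) ∧
    ρ = coefNorm q c / normLp p (trigPoly c)}

/-- The quotients `|c_k| / ‖t‖_p`, for nonzero `t` with frequencies in `Λ` and every `k`. -/
def ratiosSup {d : ℕ} (Λ : Set (Fin d → ℤ)) (p : ℝ) : Set ℝ :=
  {ρ | ∃ c : (Fin d → ℤ) →₀ ℂ, c ≠ 0 ∧ (∀ k ∈ c.support, k ∈ Λ) ∧
    ∃ k, ρ = ‖c k‖ / normLp p (trigPoly c)}

/-- the quantity `A_d(N)` of the question -/
noncomputable def A (d : ℕ) (N : ℝ) : ℝ := sSup (ratios (Gamma d N) 1 1)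

/-- both sides of the estimate for one lower set -/
theorem both (d : ℕ) (p : ℝ) (hp0 : 0 < p) (hp1 : p ≤ 1) :
    ∃ c C : ℝ, 0 < c ∧ 0 < C ∧ ∀ (Λ : Set (Fin d → ℤ)) (V W : ℝ), IsLow Λ →
      0 ≤ V → (∃ k ∈ Λ, V ≤ size k) → 1 ≤ W → (∀ k ∈ Λ, size k ≤ W) →
      (∀ q : ℝ, 1 ≤ q → BddAbove (ratios Λ p q) ∧
        c * V ^ (1 / p - 1 + 1 / q) ≤ sSup (ratios Λ p q) ∧
        sSup (ratios Λ p q) ≤ C * W ^ (1 / p - 1 + 1 / q)) ∧
      (BddAbove (ratiosSup Λ p) ∧ c * V ^ (1 / p - 1) ≤ sSup (ratiosSup Λ p) ∧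
        sSup (ratiosSup Λ p) ≤ C * W ^ (1 / p - 1)) := by
  obtain ⟨C, hC1, hup⟩ := Pool.Agent.Y247.HX.upper_all d
  have hC0 : 0 < C := by linarith
  have h1p : 1 ≤ 1 / p := by rw [le_div_iff₀ hp0]; linarith
  have hr : (0:ℝ) < 2 * (⌈1 / p⌉₊ : ℝ) := by
    have : 0 < ⌈1 / p⌉₊ := Nat.ceil_pos.mpr (by positivity)
    positivity
  refine ⟨(2 * (⌈1 / p⌉₊ : ℝ)) ^ (-(2 * d / p)), C ^ (1 / p), Real.rpow_pos_of_pos hr _,
    Real.rpow_pos_of_pos hC0 _, fun Λ V W hΛ hV hk hW hW' => ?_⟩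
  obtain ⟨k, hkΛ, hVk⟩ := hk
  obtain ⟨c0, hc00, hc01, ⟨l0, hc02⟩, hc03⟩ := Pool.Agent.Y247.HX.lower_all hp0 hp1 k
  have hmem : ∀ l ∈ c0.support, l ∈ Λ := fun l hl => hΛ k hkΛ l (hc01 l hl)
  have hup' : ∀ c : (Fin d → ℤ) →₀ ℂ, c ≠ 0 → (∀ k ∈ c.support, k ∈ Λ) →
      0 < normLp p (trigPoly c) ∧
      (∀ k, ‖c k‖ ≤ (C * W) ^ (1 / p - 1) * normLp p (trigPoly c)) ∧
      ∀ q : ℝ, 1 ≤ q → coefNorm q c ≤ (C * W) ^ (1 / p - 1 + 1 / q) * normLp p (trigPoly c) :=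
    fun c hc0 hc => hup p hp0 hp1 W hW c hc0 (fun k hk => hW' k (hc k hk))
  have hpos0 : 0 < normLp p (trigPoly c0) := (hup' c0 hc00 hmem).1
  have hCW : ∀ e : ℝ, 0 ≤ e → e ≤ 1 / p → (C * W) ^ e ≤ C ^ (1 / p) * W ^ e := by
    intro e he0 he
    rw [Real.mul_rpow hC0.le (by linarith)]
    apply mul_le_mul_of_nonneg_right _ (Real.rpow_nonneg (by linarith) _)
    exact Real.rpow_le_rpow_of_exponent_le hC1 he
  refine ⟨fun q hq => ?_, ?_⟩
  · have hq0 : 0 < q := by linarith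
    have hq1 : 1 / q ≤ 1 := by rw [div_le_iff₀ hq0]; linarith
    have hq2 : 0 < 1 / q := by positivity
    have hub : ∀ ρ ∈ ratios Λ p q, ρ ≤ C ^ (1 / p) * W ^ (1 / p - 1 + 1 / q) := by
      rintro ρ ⟨c, hc0, hc, rfl⟩
      obtain ⟨h1, _, h3⟩ := hup' c hc0 hc
      rw [div_le_iff₀ h1]
      refine (h3 q hq).trans ?_
      exact mul_le_mul_of_nonneg_right (hCW _ (by linarith) (by linarith)) h1.le
    have hb : BddAbove (ratios Λ p q) := ⟨_, hub⟩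
    have hin : coefNorm q c0 / normLp p (trigPoly c0) ∈ ratios Λ p q := ⟨c0, hc00, hmem, rfl⟩
    refine ⟨hb, ?_, csSup_le ⟨_, hin⟩ hub⟩
    refine le_trans ?_ (le_csSup hb hin)
    rw [le_div_iff₀ hpos0]
    refine le_trans ?_ (hc03 q hq)
    apply mul_le_mul_of_nonneg_right _ hpos0.le
    apply mul_le_mul_of_nonneg_left _ (Real.rpow_nonneg hr.le _)
    exact Real.rpow_le_rpow hV hVk (by linarith)
  · have hub : ∀ ρ ∈ ratiosSup Λ p, ρ ≤ C ^ (1 / p) * W ^ (1 / p - 1) := by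
      rintro ρ ⟨c, hc0, hc, k, rfl⟩
      obtain ⟨h1, h2, _⟩ := hup' c hc0 hc
      rw [div_le_iff₀ h1]
      refine (h2 k).trans ?_
      exact mul_le_mul_of_nonneg_right (hCW _ (by linarith) (by linarith)) h1.le
    have hb : BddAbove (ratiosSup Λ p) := ⟨_, hub⟩
    have hin : ‖c0 l0‖ / normLp p (trigPoly c0) ∈ ratiosSup Λ p := ⟨c0, hc00, hmem, l0, rfl⟩
    refine ⟨hb, ?_, csSup_le ⟨_, hin⟩ hub⟩
    refine le_trans ?_ (le_csSup hb hin)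
    rw [le_div_iff₀ hpos0]
    refine le_trans ?_ hc02
    apply mul_le_mul_of_nonneg_right _ hpos0.le
    apply mul_le_mul_of_nonneg_left _ (Real.rpow_nonneg hr.le _)
    exact Real.rpow_le_rpow hV hVk (by linarith)

lemma gamma_low (d : ℕ) (N : ℝ) : IsLow (Gamma d N) := by
  intro k hk l hl
  refine le_trans ?_ (show size k ≤ N from hk)
  unfold size
  apply Finset.prod_le_prod (fun _ _ => le_max_of_le_right zero_le_one)
  intro j _
  apply max_le_max _ le_rfl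
  have := hl j
  exact_mod_cast this

/-- Let `d` be any dimension and `0 < p ≤ 1`. There are `c, C > 0` such that for EVERY lower set `Λ` of
frequencies with largest product `V = max_{k ∈ Λ} ∏ max(|k_j|, 1)` and every `1 ≤ q < ∞`,
`c V^{1/p-1+1/q} ≤ sup_{t ∈ T(Λ)} ‖t̂‖_{ℓ_q} / ‖t‖_p ≤ C V^{1/p-1+1/q}`, and for `q = ∞` the same with
exponent `1/p - 1`; in particular, for every `d ≥ 1`, every `N ≥ 1` and every `1 ≤ q < ∞` the supremum
over the hyperbolic cross `Γ(N)` has exact order `N^{1/p-1+1/q}`, and `A_d(N)` has exact order `N`. -/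
theorem result :
    (∀ (d : ℕ) (p : ℝ), 0 < p → p ≤ 1 → ∃ c C : ℝ, 0 < c ∧ 0 < C ∧
      (∀ (Λ : Set (Fin d → ℤ)) (V : ℝ), IsLow Λ → IsGreatest (size '' Λ) V →
        (∀ q : ℝ, 1 ≤ q → BddAbove (ratios Λ p q) ∧
          c * V ^ (1 / p - 1 + 1 / q) ≤ sSup (ratios Λ p q) ∧
          sSup (ratios Λ p q) ≤ C * V ^ (1 / p - 1 + 1 / q)) ∧
        (BddAbove (ratiosSup Λ p) ∧ c * V ^ (1 / p - 1) ≤ sSup (ratiosSup Λ p) ∧
          sSup (ratiosSup Λ p) ≤ C * V ^ (1 / p - 1))) ∧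
      (1 ≤ d → ∀ N : ℝ, 1 ≤ N →
        (∀ q : ℝ, 1 ≤ q → BddAbove (ratios (Gamma d N) p q) ∧
          c * N ^ (1 / p - 1 + 1 / q) ≤ sSup (ratios (Gamma d N) p q) ∧
          sSup (ratios (Gamma d N) p q) ≤ C * N ^ (1 / p - 1 + 1 / q)) ∧
        (BddAbove (ratiosSup (Gamma d N) p) ∧ c * N ^ (1 / p - 1) ≤ sSup (ratiosSup (Gamma d N) p) ∧
          sSup (ratiosSup (Gamma d N) p) ≤ C * N ^ (1 / p - 1)))) ∧
    (∀ d : ℕ, 1 ≤ d → ∃ c C : ℝ, 0 < c ∧ 0 < C ∧ ∀ N : ℝ, 1 ≤ N →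
      BddAbove (ratios (Gamma d N) 1 1) ∧ c * N ≤ A d N ∧ A d N ≤ C * N) := by
  have main : ∀ (d : ℕ) (p : ℝ), 0 < p → p ≤ 1 → ∃ c C : ℝ, 0 < c ∧ 0 < C ∧
      (∀ (Λ : Set (Fin d → ℤ)) (V : ℝ), IsLow Λ → IsGreatest (size '' Λ) V →
        (∀ q : ℝ, 1 ≤ q → BddAbove (ratios Λ p q) ∧
          c * V ^ (1 / p - 1 + 1 / q) ≤ sSup (ratios Λ p q) ∧
          sSup (ratios Λ p q) ≤ C * V ^ (1 / p - 1 + 1 / q)) ∧
        (BddAbove (ratiosSup Λ p) ∧ c * V ^ (1 / p - 1) ≤ sSup (ratiosSup Λ p) ∧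
          sSup (ratiosSup Λ p) ≤ C * V ^ (1 / p - 1))) ∧
      (1 ≤ d → ∀ N : ℝ, 1 ≤ N →
        (∀ q : ℝ, 1 ≤ q → BddAbove (ratios (Gamma d N) p q) ∧
          c * N ^ (1 / p - 1 + 1 / q) ≤ sSup (ratios (Gamma d N) p q) ∧
          sSup (ratios (Gamma d N) p q) ≤ C * N ^ (1 / p - 1 + 1 / q)) ∧
        (BddAbove (ratiosSup (Gamma d N) p) ∧ c * N ^ (1 / p - 1) ≤ sSup (ratiosSup (Gamma d N) p) ∧
          sSup (ratiosSup (Gamma d N) p) ≤ C * N ^ (1 / p - 1))) := by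
    intro d p hp0 hp1
    obtain ⟨c, C, hc, hC, h⟩ := both d p hp0 hp1
    have h1p : 1 ≤ 1 / p := by rw [le_div_iff₀ hp0]; linarith
    -- a smaller lower constant serves for the hyperbolic crosses too
    have h2 : (0:ℝ) < 2 ^ (-(1 / p)) := Real.rpow_pos_of_pos (by norm_num) _
    have h2' : (2:ℝ) ^ (-(1 / p)) ≤ 1 := Real.rpow_le_one_of_one_le_of_nonpos (by norm_num) (by linarith)
    refine ⟨c * 2 ^ (-(1 / p)), C, mul_pos hc h2, hC, ?_, ?_⟩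
    · intro Λ V hΛ hV
      obtain ⟨⟨k, hk, hkV⟩, hmax⟩ := hV
      have hV1 : 1 ≤ V := by rw [← hkV]; exact Pool.Agent.Y247.HX.size_ge_one k
      obtain ⟨hq, hs⟩ := h Λ V V hΛ (by linarith) ⟨k, hk, hkV.ge⟩ hV1
        (fun l hl => hmax ⟨l, hl, rfl⟩)
      have hle : ∀ e : ℝ, c * 2 ^ (-(1 / p)) * V ^ e ≤ c * V ^ e := by
        intro e
        apply mul_le_mul_of_nonneg_right _ (Real.rpow_nonneg (by linarith) _)
        nlinarith
      refine ⟨fun q hq1 => ?_, ?_⟩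
      · obtain ⟨a1, a2, a3⟩ := hq q hq1
        exact ⟨a1, (hle _).trans a2, a3⟩
      · obtain ⟨a1, a2, a3⟩ := hs
        exact ⟨a1, (hle _).trans a2, a3⟩
    · intro hd N hN
      have hN2 : ∃ k ∈ Gamma d N, N / 2 ≤ size k := by
        refine ⟨fun j => if j = ⟨0, hd⟩ then (⌊N⌋₊ : ℤ) else 0, ?_, ?_⟩
        all_goals
          have hsz : size (fun j : Fin d => if j = ⟨0, hd⟩ then (⌊N⌋₊ : ℤ) else 0) = ⌊N⌋₊ := by
            unfold size
            rw [Finset.prod_eq_single (⟨0, hd⟩ : Fin d)]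
            · beta_reduce
              rw [if_pos rfl]
              have : (1:ℝ) ≤ (⌊N⌋₊ : ℝ) := by
                have : 1 ≤ ⌊N⌋₊ := Nat.le_floor (by exact_mod_cast hN)
                exact_mod_cast this
              push_cast
              rw [abs_of_nonneg (by linarith), max_eq_left this]
            · intro j _ hj
              beta_reduce
              rw [if_neg hj]; simp
            · intro h; exact absurd (Finset.mem_univ _) h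
        · show size _ ≤ N
          rw [hsz]; exact Nat.floor_le (by linarith)
        · rw [hsz]
          have h3 := Nat.lt_floor_add_one N
          have h4 : (1:ℝ) ≤ (⌊N⌋₊ : ℝ) := by
            have : 1 ≤ ⌊N⌋₊ := Nat.le_floor (by exact_mod_cast hN)
            exact_mod_cast this
          linarith
      obtain ⟨hq, hs⟩ := h (Gamma d N) (N / 2) N (gamma_low d N) (by linarith) hN2 hN
        (fun l hl => hl)
      have hle : ∀ e : ℝ, 0 ≤ e → e ≤ 1 / p → c * 2 ^ (-(1 / p)) * N ^ e ≤ c * (N / 2) ^ e := by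
        intro e he0 he
        have h7 : ((2:ℝ) ^ e)⁻¹ = 2 ^ (-e) := (Real.rpow_neg (by norm_num) e).symm
        rw [Real.div_rpow (by linarith) (by norm_num), div_eq_mul_inv (N ^ e), h7]
        have h5 : (2:ℝ) ^ (-(1 / p)) ≤ 2 ^ (-e) :=
          Real.rpow_le_rpow_of_exponent_le (by norm_num) (by linarith)
        have h6 : 0 ≤ N ^ e := Real.rpow_nonneg (by linarith) _
        calc c * 2 ^ (-(1 / p)) * N ^ e ≤ c * 2 ^ (-e) * N ^ e := by gcongr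
          _ = c * (N ^ e * 2 ^ (-e)) := by ring
      refine ⟨fun q hq1 => ?_, ?_⟩
      · obtain ⟨a1, a2, a3⟩ := hq q hq1
        have hq0 : 0 < q := by linarith
        have hq2 : 1 / q ≤ 1 := by rw [div_le_iff₀ hq0]; linarith
        have hq3 : 0 < 1 / q := by positivity
        exact ⟨a1, (hle _ (by linarith) (by linarith)).trans a2, a3⟩
      · obtain ⟨a1, a2, a3⟩ := hs
        exact ⟨a1, (hle _ (by linarith) (by linarith)).trans a2, a3⟩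
  refine ⟨main, fun d hd => ?_⟩
  obtain ⟨c, C, hc, hC, _, h⟩ := main d 1 one_pos le_rfl
  refine ⟨c, C, hc, hC, fun N hN => ?_⟩
  obtain ⟨a1, a2, a3⟩ := (h hd N hN).1 1 le_rfl
  have he : (1:ℝ) / 1 - 1 + 1 / 1 = 1 := by norm_num
  rw [he, Real.rpow_one] at a2 a3
  exact ⟨a1, a2, a3⟩

end Pool.Agent.Results.MP_31cf03_an.LowerSets
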